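import Mathlib
import Pool.Agent.H74.Mul
import Pool.Agent.H74.Dens

/-!
# All but boundedly many of any `C log log N` consecutive dyadic intervals

The question is whether for every large `M` the interval `[M, 2 M]` contains a prime `p` such that
`(p - 1) / 2 ^ k + 1` is a prime for `k = 1`. Here all exponents `k ≤ C log log M` are allowed, and the intervals
are exactly the intervals `[M, 2 M]`: for every large `N` and every `t` all but at most `n₀ + (8 + ε) t` of the
intervals `[2 ^ s N, 2 ^ (s + 1) N]`, `0 ≤ s ≤ C log log N`, have at least `t` exponents `1 ≤ k ≤ s` for each of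
which they contain at least `N / (log N) ^ J` primes `p` such that `(p - 1) / 2 ^ k + 1` is a prime; `n₀` and
`J` depend on `ε` only and not on `C`. In particular (`t = 1`) all but boundedly many of the `C log log N`
intervals contain many primes `p` for which `(p - 1) / 2 ^ k + 1` is a prime for some `k ≤ s`, so that the
exceptional dyadic intervals have density `O (1 / K)` for the exponents `k ≤ K`; and (`t = c log log N`) all but
the proportion `(8 + ε) c / C` of them have a positive proportion of good exponents.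

Proof. For any set `V` of at least `n₀` numbers `s ≤ C log log N` at least `(1/4 - ε) |V|² / 2` of the pairs
`s' < s` of elements of `V` are such that `2 ^ s' n + 1` and `2 ^ s n + 1` are primes for many `n ∈ [N, 2 N)`;
one applies this to the set of the exceptional `s`. The coloured Maynard-Tao theorem for the forms `r n + 1`,
`r ≤ (log N) ^ C`, `n ∈ [N, 2 N)` (`Pool.Agent.NH16.QL.low_holds`) is from the starting files.
-/

set_option autoImplicit false

namespace Pool.Agent.Results.MP_39a890_nt.AllButFewDyadicIntervals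

open Finset Filter

/-- `[M, 2 M]` contains at least `X` primes `p` such that `2 ^ k` divides `p - 1` and `(p - 1) / 2 ^ k + 1` is a
prime (for `k = 1` the last number is `(p + 1) / 2`) -/
def Many (X : ℝ) (k M : ℕ) : Prop :=
  X ≤ ({p : ℕ | M ≤ p ∧ p ≤ 2 * M ∧ p.Prime ∧ 2 ^ k ∣ p - 1 ∧ ((p - 1) / 2 ^ k + 1).Prime}.ncard : ℝ)

theorem many_of {N s s' : ℕ} (hlt : s' < s) {X : ℝ}
    (h : X ≤ (Pool.Agent.H74.cnt2 (2 ^ s') (2 ^ s) N : ℝ)) : Many X (s - s') (2 ^ s * N) := by
  classical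
  refine h.trans ?_
  rw [Nat.cast_le]
  unfold Pool.Agent.H74.cnt2
  rw [← Set.ncard_coe_finset, ← Set.ncard_image_of_injective (f := fun n : ℕ => 2 ^ s * n + 1) _ (by
    intro x y hxy
    simp only [Nat.add_right_cancel_iff] at hxy
    exact Nat.eq_of_mul_eq_mul_left (by positivity) hxy)]
  apply Set.ncard_le_ncard
  · rintro p ⟨n, hn, rfl⟩
    rw [mem_coe, mem_filter, mem_Ico] at hn
    obtain ⟨⟨h1, h2⟩, h3, h4⟩ := hn
    have h5 : 2 ^ s * n = 2 ^ (s - s') * (2 ^ s' * n) := by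
      rw [← mul_assoc, ← pow_add, Nat.sub_add_cancel hlt.le]
    refine ⟨?_, ?_, h4, ?_, ?_⟩
    · show 2 ^ s * N ≤ 2 ^ s * n + 1
      have := Nat.mul_le_mul_left (2 ^ s) h1
      omega
    · show 2 ^ s * n + 1 ≤ 2 * (2 ^ s * N)
      have h6 : n + 1 ≤ 2 * N := h2
      have h7 := Nat.mul_le_mul_left (2 ^ s) h6
      have h8 : 2 ^ s * (2 * N) = 2 * (2 ^ s * N) := by ring
      have h9 : 1 ≤ 2 ^ s := Nat.one_le_two_pow
      have h10 : 2 ^ s * (n + 1) = 2 ^ s * n + 2 ^ s := by ring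
      omega
    · show 2 ^ (s - s') ∣ 2 ^ s * n + 1 - 1
      rw [Nat.add_sub_cancel, h5]
      exact dvd_mul_right _ _
    · show ((2 ^ s * n + 1 - 1) / 2 ^ (s - s') + 1).Prime
      rw [Nat.add_sub_cancel, h5, Nat.mul_div_cancel_left _ (by positivity)]
      exact h3
  · exact (Set.finite_Iic (2 * (2 ^ s * N))).subset (fun p hp => hp.2.1)

theorem result : ∀ ε : ℝ, 0 < ε → ∃ n₀ J : ℕ, ∀ C : ℝ, ∃ N₀ : ℕ, ∀ N : ℕ, N₀ ≤ N → ∀ t : ℕ,
    ({s : ℕ | (s : ℝ) ≤ C * Real.log (Real.log N) ∧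
        {k : ℕ | 1 ≤ k ∧ k ≤ s ∧ Many ((N : ℝ) / Real.log N ^ J) k (2 ^ s * N)}.ncard < t}.ncard : ℝ) ≤
      n₀ + (8 + ε) * t := by
  classical
  intro ε hε
  obtain ⟨K, J, hK, hfive⟩ := Pool.Agent.H74.five
  obtain ⟨ε', hε'⟩ : ∃ ε' : ℝ, ε' = ε / (4 * (8 + ε)) := ⟨_, rfl⟩
  have hε'0 : 0 < ε' := by rw [hε']; positivity
  obtain ⟨n₀, hn₀⟩ := Pool.Agent.H74.pairsM 5 K (by norm_num) ε' hε'0
  refine ⟨n₀, J, fun C => ?_⟩
  have tN : Tendsto (fun N : ℕ => (N : ℝ)) atTop atTop := tendsto_natCast_atTop_atTop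
  have tL : Tendsto (fun N : ℕ => Real.log (N : ℝ)) atTop atTop := Real.tendsto_log_atTop.comp tN
  obtain ⟨N₀, hN₀⟩ := eventually_atTop.1 ((hfive C).and (tL.eventually_ge_atTop 1))
  refine ⟨N₀, fun N hN t => ?_⟩
  obtain ⟨h5, hl⟩ := hN₀ N hN
  obtain ⟨X, hX⟩ : ∃ X : ℝ, X = (N : ℝ) / Real.log N ^ J := ⟨_, rfl⟩
  rw [← hX]
  rw [← hX] at h5
  obtain ⟨V, hV⟩ : ∃ V : Finset ℕ, V = (range (⌊C * Real.log (Real.log N)⌋₊ + 1)).filter (fun s : ℕ =>
    (s : ℝ) ≤ C * Real.log (Real.log N) ∧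
      {k : ℕ | 1 ≤ k ∧ k ≤ s ∧ Many X k (2 ^ s * N)}.ncard < t) := ⟨_, rfl⟩
  have hset : {s : ℕ | (s : ℝ) ≤ C * Real.log (Real.log N) ∧
      {k : ℕ | 1 ≤ k ∧ k ≤ s ∧ Many X k (2 ^ s * N)}.ncard < t} = (V : Set ℕ) := by
    ext s
    rw [hV, mem_coe, mem_filter, mem_range]
    constructor
    · intro h
      refine ⟨?_, h⟩
      have := Nat.le_floor h.1
      omega
    · intro h
      exact h.2
  rw [hset, Set.ncard_coe_finset]
  have ht0 : (0 : ℝ) ≤ (8 + ε) * t := by positivity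
  rcases le_or_gt V.card n₀ with hc | hc
  · have : (V.card : ℝ) ≤ n₀ := by exact_mod_cast hc
    linarith
  have hpairs := hn₀ (fun s' s => X ≤ (Pool.Agent.H74.cnt2 (2 ^ s') (2 ^ s) N : ℝ)) V hc.le (by
    intro A hA hAV _
    refine h5 (fun g i => 2 ^ A g i) ?_ (fun g i => Nat.one_le_two_pow) (fun g i => ?_)
    · intro x y hxy
      exact hA (Nat.pow_right_injective le_rfl hxy)
    · have h6 := hAV g i
      rw [hV, mem_filter] at h6
      have h7 := h6.2.1
      have hl0 : 0 < Real.log N := by linarith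
      have h8 : Real.log N ^ C = Real.exp (C * Real.log (Real.log N)) := by
        rw [Real.rpow_def_of_pos hl0, mul_comm]
      rw [h8]
      push_cast
      have h9 : (2 : ℝ) ≤ Real.exp 1 := by
        have := Real.exp_one_gt_d9
        linarith
      calc (2 : ℝ) ^ A g i ≤ (Real.exp 1) ^ A g i := pow_le_pow_left₀ (by norm_num) h9 _
        _ = Real.exp (A g i) := by rw [← Real.exp_nat_mul, mul_one]
        _ ≤ _ := Real.exp_le_exp.2 h7)
  -- the upper bound for the number of the pairs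
  have hup : (((V ×ˢ V).filter (fun y => y.1 < y.2 ∧
      X ≤ (Pool.Agent.H74.cnt2 (2 ^ y.1) (2 ^ y.2) N : ℝ))).card : ℝ) ≤ V.card * t := by
    have h6 : (V ×ˢ V).filter (fun y => y.1 < y.2 ∧
      X ≤ (Pool.Agent.H74.cnt2 (2 ^ y.1) (2 ^ y.2) N : ℝ)) ⊆
      V.biUnion (fun s => ((range s).filter (fun s' =>
        X ≤ (Pool.Agent.H74.cnt2 (2 ^ s') (2 ^ s) N : ℝ))).image (fun s' => (s', s))) := by
      rintro ⟨s', s⟩ hy
      rw [mem_filter, mem_product] at hy
      obtain ⟨⟨_, h2⟩, h3, h4⟩ := hy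
      exact mem_biUnion.2 ⟨s, h2, mem_image.2 ⟨s', mem_filter.2 ⟨mem_range.2 h3, h4⟩, rfl⟩⟩
    have h7 : ((V ×ˢ V).filter (fun y => y.1 < y.2 ∧
      X ≤ (Pool.Agent.H74.cnt2 (2 ^ y.1) (2 ^ y.2) N : ℝ))).card ≤ V.card * t := by
      refine (card_le_card h6).trans (card_biUnion_le_card_mul _ _ _ fun s hs => ?_)
      refine card_image_le.trans ?_
      rw [hV, mem_filter] at hs
      refine le_trans ?_ hs.2.2.le
      have hfin : {k : ℕ | 1 ≤ k ∧ k ≤ s ∧ Many X k (2 ^ s * N)}.Finite :=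
        (Set.finite_Iic s).subset fun k hk => hk.2.1
      rw [Set.ncard_eq_toFinset_card _ hfin]
      refine card_le_card_of_injOn (fun s' => s - s') ?_ ?_
      · intro s' hs'
        rw [mem_coe, mem_filter, mem_range] at hs'
        rw [mem_coe, Set.Finite.mem_toFinset]
        exact ⟨by show 1 ≤ s - s'; omega, by show s - s' ≤ s; omega, many_of hs'.1 hs'.2⟩
      · intro x hx y hy hxy
        rw [mem_coe, mem_filter, mem_range] at hx hy
        simp only at hxy
        omega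
    exact_mod_cast h7
  have hfin := hpairs.trans hup
  have hV0 : (0 : ℝ) < V.card := by exact_mod_cast (by omega : 0 < V.card)
  have h6 : (1 / (((5 : ℕ) : ℝ) - 1) - ε') * (V.card : ℝ) / 2 ≤ t := by
    have h7 : ((1 / (((5 : ℕ) : ℝ) - 1) - ε') * (V.card : ℝ) / 2) * V.card ≤ t * V.card := by
      calc _ = (1 / (((5 : ℕ) : ℝ) - 1) - ε') * (V.card : ℝ) ^ 2 / 2 := by ring
        _ ≤ V.card * t := hfin
        _ = _ := by ring
    exact le_of_mul_le_mul_right h7 hV0
  have h7 : 1 / (((5 : ℕ) : ℝ) - 1) - ε' = 2 / (8 + ε) := by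
    rw [hε']
    push_cast
    field_simp
    ring
  rw [h7] at h6
  have h8 : (V.card : ℝ) ≤ (8 + ε) * t := by
    have h9 : 2 / (8 + ε) * (V.card : ℝ) / 2 = V.card / (8 + ε) := by
      field_simp
    rw [h9, div_le_iff₀ (by positivity)] at h6
    linarith
  have : (0 : ℝ) ≤ n₀ := Nat.cast_nonneg _
  linarith

end Pool.Agent.Results.MP_39a890_nt.AllButFewDyadicIntervals
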