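import Pool.Agent.H76.NA.Sys

/-!
# Narrow progressions of primes p in [N, 2N] for which (p + 1) / 2 has at most two prime factors, and conversely
-/

set_option autoImplicit false

namespace Pool.Agent.Results.MP_39a890_nt.SzemerediChen

open Finset Pool.Agent.H76.CL Pool.Agent.H76.NA

/-- the `p` in `[N, 2 N]` for which `(p + 1) / 2` is an integer `q` and one of the two numbers `p`, `q` (the number `p`
if `b` is true) is a prime and the other one is a prime or a product of two primes, both `≥ N ^ (1 / 9)` -/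
def ChenIn (b : Bool) (N : ℕ) : Set ℕ :=
  {p : ℕ | N ≤ p ∧ p ≤ 2 * N ∧ ∃ q : ℕ, p + 1 = 2 * q ∧ (if b then p else q).Prime ∧
    (if b then q else p).primeFactorsList.length ≤ 2 ∧
    ∀ l ∈ (if b then q else p).primeFactors, (N : ℝ) ^ (1 / 9 : ℝ) ≤ l}

/-- the form which takes prime values -/
def g₀ (b : Bool) : ℤ × ℤ := if b then (2, -1) else (1, 0)

/-- the form with at most two prime factors -/
def g₁ (b : Bool) : ℤ × ℤ := if b then (1, 0) else (2, -1)

theorem g_cases (b : Bool) : ((g₀ b = (2, -1) ∧ g₁ b = (1, 0)) ∧ b = true) ∨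
    ((g₀ b = (1, 0) ∧ g₁ b = (2, -1)) ∧ b = false) := by
  cases b <;> simp [g₀, g₁]

theorem val_one (n : ℕ) : val ((1 : ℤ), (0 : ℤ)) n = n := by
  show (1 : ℤ) * n + 0 = n
  ring

theorem val_two {n : ℕ} (hn : 1 ≤ n) : val ((2 : ℤ), (-1 : ℤ)) n = ((2 * n - 1 : ℕ) : ℤ) := by
  show (2 : ℤ) * n + -1 = _
  rw [Nat.cast_sub (by omega)]
  push_cast
  ring

theorem abs_g₀ (b : Bool) {n : ℕ} (hn : 1 ≤ n) : (val (g₀ b) n).natAbs = if b then 2 * n - 1 else n := by
  cases b
  · show (val ((1 : ℤ), (0 : ℤ)) n).natAbs = n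
    rw [val_one, Int.natAbs_natCast]
  · show (val ((2 : ℤ), (-1 : ℤ)) n).natAbs = 2 * n - 1
    rw [val_two hn, Int.natAbs_natCast]

theorem abs_g₁ (b : Bool) {n : ℕ} (hn : 1 ≤ n) : (val (g₁ b) n).natAbs = if b then n else 2 * n - 1 := by
  cases b
  · show (val ((2 : ℤ), (-1 : ℤ)) n).natAbs = 2 * n - 1
    rw [val_two hn, Int.natAbs_natCast]
  · show (val ((1 : ℤ), (0 : ℤ)) n).natAbs = n
    rw [val_one, Int.natAbs_natCast]

/-- **Szemerédi's theorem for Chen type pairs `p`, `(p + 1) / 2` in `[N, 2 N]`.**  For all `m` and `δ > 0` there are `C`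
and `N₀` such that for all `N ≥ N₀` and both sets `T` of Chen type pairs (either `p` in `[N, 2 N]` is a prime and
`(p + 1) / 2` is an integer with at most two prime factors, all `≥ N ^ (1 / 9)`, or with the roles of `p` and
`(p + 1) / 2` exchanged), every subset `S` of `T` with at least `δ |T|` elements contains an arithmetic progression of
`m` terms with a difference `1 ≤ d ≤ (log N) ^ C`. -/
theorem result : ∀ (m : ℕ) (δ : ℝ), 0 < δ → ∃ C N₀ : ℕ, ∀ N : ℕ, N₀ ≤ N → ∀ b : Bool,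
    ∀ S : Set ℕ, S ⊆ ChenIn b N → δ * ((ChenIn b N).ncard : ℝ) ≤ (S.ncard : ℝ) →
      ∃ a d : ℕ, 1 ≤ d ∧ (d : ℝ) ≤ Real.log N ^ C ∧ ∀ j < m, a + j * d ∈ S := by
  classical
  intro m δ hδ
  obtain ⟨ε, c, hε0, hc, r, B₀, hB₀⟩ := chen_abs 2 2 le_rfl (by norm_num) (1 / 3) (by norm_num)
  obtain ⟨C, x₀, hz⟩ := szem 2 (1 / 9) c (1 / 3) (by norm_num) hc (by norm_num) m δ hδ
  refine ⟨C + 1, B₀ + x₀ + 100, ?_⟩
  intro N hN b S hS hSδ
  have hNr : (100 : ℝ) ≤ N := by exact_mod_cast (by omega : 100 ≤ N)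
  set G : Finset (ℤ × ℤ) := {((1 : ℤ), (0 : ℤ)), ((2 : ℤ), (-1 : ℤ))} with hG
  have hg0 : g₀ b ∈ G := by
    rw [hG]
    cases b <;> simp [g₀]
  have hg1 : g₁ b ∈ G := by
    rw [hG]
    cases b <;> simp [g₁]
  have hAdm : Adm G := by
    intro p hp
    refine ⟨1, fun f hf hd => ?_⟩
    have h1 : (p : ℤ) ∣ 1 := by
      rw [hG, mem_insert, mem_singleton] at hf
      rcases hf with rfl | rfl
      · have e : val ((1 : ℤ), (0 : ℤ)) 1 = 1 := by decide
        rwa [e] at hd
      · have e : val ((2 : ℤ), (-1 : ℤ)) 1 = 1 := by decide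
        rwa [e] at hd
    have h2 : p ∣ 1 := by exact_mod_cast h1
    exact hp.one_lt.ne' (Nat.dvd_one.1 h2)
  have hsz : ∀ f ∈ G, f.1 ≠ 0 ∧ |f.1| ≤ ((2 : ℕ) : ℤ) ∧ |f.2| ≤ 1 := by
    intro f hf
    rw [hG, mem_insert, mem_singleton] at hf
    rcases hf with rfl | rfl <;> norm_num
  have hNz : (100 : ℤ) ≤ N := by exact_mod_cast (by omega : 100 ≤ N)
  have hA : ((N / 2 : ℕ) : ℝ) ≤ N / 2 := by
    have := Nat.cast_div_le (α := ℝ) (m := N) (n := 2)
    simpa using this
  have hmain := (hB₀ N (by omega) (N / 2) (by linarith) G card_le_two (g₀ b) hg0 (g₁ b) hg1 (by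
      intro f hf
      obtain ⟨h1, h2, h3⟩ := hsz f hf
      refine ⟨h1, h2, h3.trans ?_⟩
      have : (1 : ℤ) ≤ (N : ℤ) ^ 2 := one_le_pow₀ (by linarith)
      exact this) (by
      refine (hsz _ hg0).2.2.trans ?_
      push_cast
      linarith) (by
      refine (hsz _ hg1).2.2.trans ?_
      push_cast
      linarith) (by
      rcases g_cases b with ⟨⟨h1, h2⟩, -⟩ | ⟨⟨h1, h2⟩, -⟩ <;> rw [h1, h2] <;> norm_num) hAdm).2
  -- the set of the `q`
  set P : ℕ → Prop := fun q => (if b then 2 * q - 1 else q).Prime ∧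
    (if b then q else 2 * q - 1).primeFactorsList.length ≤ 2 ∧
    ∀ l ∈ (if b then q else 2 * q - 1).primeFactors, (N : ℝ) ^ (1 / 9 : ℝ) ≤ l with hP
  set T' : Finset ℕ := (Ioc (N / 2) N).filter P with hT'
  have hT'm : ∀ q, q ∈ T' ↔ (N / 2 < q ∧ q ≤ N) ∧ P q := by
    intro q
    rw [hT', mem_filter, mem_Ioc]
  have hmap : ∀ q : ℕ, 2 * q - 1 ∈ ChenIn b N ↔ (1 ≤ q ∧ q ∈ T') := by
    intro q
    rw [hT'm]
    constructor
    · rintro ⟨h1, h2, q', h3, h4, h5, h6⟩
      have h7 : q = q' ∧ 1 ≤ q := by omega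
      obtain ⟨rfl, h8⟩ := h7
      exact ⟨h8, ⟨by omega, by omega⟩, h4, h5, h6⟩
    · rintro ⟨h1, ⟨h2, h3⟩, h4, h5, h6⟩
      exact ⟨by omega, by omega, q, by omega, h4, h5, h6⟩
  have hodd : ∀ p ∈ ChenIn b N, ∃ q, 1 ≤ q ∧ p = 2 * q - 1 := by
    rintro p ⟨h1, h2, q, h3, -⟩
    exact ⟨q, by omega, by omega⟩
  have hinj : ∀ q q' : ℕ, 1 ≤ q → 1 ≤ q' → 2 * q - 1 = 2 * q' - 1 → q = q' := by
    intro q q' h1 h2 h3
    omega
  have hTe : ChenIn b N = (fun q => 2 * q - 1) '' (T' : Set ℕ) := by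
    ext p
    constructor
    · intro hp
      obtain ⟨q, h1, rfl⟩ := hodd p hp
      exact ⟨q, mem_coe.2 ((hmap q).1 hp).2, rfl⟩
    · rintro ⟨q, hq, rfl⟩
      refine (hmap q).2 ⟨?_, mem_coe.1 hq⟩
      have := ((hT'm q).1 (mem_coe.1 hq)).1
      omega
  have hT'1 : ∀ q ∈ T', 1 ≤ q := by
    intro q hq
    have := ((hT'm q).1 hq).1
    omega
  have hTcard : (ChenIn b N).ncard = T'.card := by
    rw [hTe, Set.ncard_image_of_injOn, Set.ncard_coe_finset]
    intro q hq q' hq' he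
    exact hinj q q' (hT'1 q (mem_coe.1 hq)) (hT'1 q' (mem_coe.1 hq')) he
  set S' : Finset ℕ := T'.filter (fun q => 2 * q - 1 ∈ S) with hS'
  have hSe : S = (fun q => 2 * q - 1) '' (S' : Set ℕ) := by
    ext p
    constructor
    · intro hp
      obtain ⟨q, h1, rfl⟩ := hodd p (hS hp)
      exact ⟨q, mem_coe.2 (mem_filter.2 ⟨((hmap q).1 (hS hp)).2, hp⟩), rfl⟩
    · rintro ⟨q, hq, rfl⟩
      exact (mem_filter.1 (mem_coe.1 hq)).2
  have hScard : S.ncard = S'.card := by
    conv_lhs => rw [hSe]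
    rw [Set.ncard_image_of_injOn, Set.ncard_coe_finset]
    intro q hq q' hq' he
    exact hinj q q' (hT'1 q (mem_filter.1 (mem_coe.1 hq)).1) (hT'1 q' (mem_filter.1 (mem_coe.1 hq')).1) he
  rw [hTcard, hScard] at hSδ
  obtain ⟨a, d, h1, h2, h3⟩ := hz N (by omega) (N / 2) (by linarith) (fun p => rts G p) (by
      intro p hp
      have h1 := rts_card hAdm hp
      refine ⟨h1.1.trans card_le_two, h1.2, fun c hc => ?_⟩
      unfold rts at hc
      exact mem_range.1 (mem_filter.1 hc).1) T' (by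
      intro q hq
      exact mem_Ioc.2 ((hT'm q).1 hq).1) (by
      intro q hq p hp hpN hcon
      obtain ⟨⟨h1, h2⟩, h3, h4, h5⟩ := (hT'm q).1 hq
      have hq1 := hT'1 q hq
      unfold rts at hcon
      rw [mem_filter] at hcon
      obtain ⟨-, g, hg, hd⟩ := hcon
      have h6 := (dvd_val_iff (mod_sub q p)).1 hd
      have h7 : g = g₀ b ∨ g = g₁ b := by
        rw [hG, mem_insert, mem_singleton] at hg
        rcases g_cases b with ⟨⟨e1, e2⟩, -⟩ | ⟨⟨e1, e2⟩, -⟩ <;> rw [e1, e2] <;> tauto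
      rcases h7 with rfl | rfl
      · -- a prime which is large
        have h8 : p ∣ if b then 2 * q - 1 else q := by
          rw [← abs_g₀ b hq1]
          exact Int.natCast_dvd.1 h6
        have h9 := (Nat.prime_dvd_prime_iff_eq hp h3).1 h8
        have h10 : q ≤ p := by
          rw [h9]
          split_ifs <;> omega
        have h11 : (N : ℝ) / 2 ≤ q := by
          have : N + 1 ≤ 2 * q := by omega
          have h12 : ((N + 1 : ℕ) : ℝ) ≤ ((2 * q : ℕ) : ℝ) := by exact_mod_cast this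
          push_cast at h12
          linarith
        have h12 : (q : ℝ) ≤ p := by exact_mod_cast h10
        have h13 : (N : ℝ) ^ (1 / 9 : ℝ) ≤ (N : ℝ) ^ (1 / 2 : ℝ) :=
          Real.rpow_le_rpow_of_exponent_le (by linarith) (by norm_num)
        have h14 : (N : ℝ) ^ (1 / 2 : ℝ) ≤ N / 2 := by
          rw [← Real.sqrt_eq_rpow]
          apply Real.sqrt_le_iff.2
          constructor
          · positivity
          · nlinarith
        linarith
      · have h8 : p ∣ if b then q else 2 * q - 1 := by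
          rw [← abs_g₁ b hq1]
          exact Int.natCast_dvd.1 h6
        have h9 := h5 p (Nat.mem_primeFactors.2 ⟨hp, h8, by split_ifs <;> omega⟩)
        linarith) (by
      have h1 : Pool.Agent.Y843.HS.VV (fun p => rts G p) 0 N = SS G N := by
        unfold Pool.Agent.Y843.HS.VV SS
        rw [Pr_eq]
      rw [h1]
      have h2 : (SysA (g₀ b) (g₁ b) G (N / 2) N r ε).card ≤ T'.card := by
        apply card_le_card
        intro q hq
        obtain ⟨h3, h4, h5, h6, -⟩ := mem_SysA.1 hq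
        have hq1 : 1 ≤ q := by omega
        rw [abs_g₀ b hq1] at h4
        rw [abs_g₁ b hq1] at h5
        exact (hT'm q).2 ⟨h3, h4, h5, (fac_iff (abs_g₁ b hq1) (by split_ifs <;> omega) _).1 h6⟩
      have h3 : ((SysA (g₀ b) (g₁ b) G (N / 2) N r ε).card : ℝ) ≤ T'.card := by exact_mod_cast h2
      have h4 : (0 : ℝ) ≤ ((2 : ℕ) : ℝ) := Nat.cast_nonneg _
      linarith) S' (filter_subset _ _) hSδ
  refine ⟨2 * a - 1, 2 * d, by omega, ?_, ?_⟩
  · have hlog : (2 : ℝ) ≤ Real.log N := by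
      have h4 : Real.exp 2 ≤ 100 := by
        have h5 : Real.exp 2 = Real.exp 1 * Real.exp 1 := by rw [← Real.exp_add]; norm_num
        have h6 := Real.exp_one_lt_d9
        have h7 : 0 < Real.exp 1 := Real.exp_pos 1
        rw [h5]
        nlinarith
      rw [Real.le_log_iff_exp_le (by linarith)]
      linarith
    have h4 : 0 ≤ Real.log (N : ℝ) ^ C := by positivity
    rw [pow_succ]
    push_cast
    nlinarith
  · intro j hj
    have h4 := h3 j hj
    rw [hS', mem_filter] at h4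
    rcases Nat.eq_zero_or_pos a with ha | ha
    · have h5 := h3 0 (by omega)
      rw [hS', mem_filter, zero_mul, add_zero, ha] at h5
      have := hT'1 0 h5.1
      omega
    · have e : 2 * a - 1 + j * (2 * d) = 2 * (a + j * d) - 1 := by
        have : j * (2 * d) = 2 * (j * d) := by ring
        omega
      rw [e]
      exact h4.2

end Pool.Agent.Results.MP_39a890_nt.SzemerediChen
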